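import Pool.Agent.LibPas.ColOne

/-!
# Columns one and two of the Pascal rows `t * 2 ^ k + s` and `t * 2 ^ k - s`
-/

set_option autoImplicit false

namespace Pool.Agent.Results.MP_311f06_nt.ColumnsOneTwo

open Pool.Agent.LibPas

/-- The number of binary digits `1` of `x`. -/
def ones (x : ℕ) : ℕ := (Nat.digits 2 x).sum

/-- A natural number is evil if its number of binary digits `1` is even. -/
def Evil (x : ℕ) : Prop := Even (ones x)

/-- Row `n` of Pascal's triangle has an evil entry in column `1` or `2`. -/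
def EvilInOneTwo (n : ℕ) : Prop := ∃ m, 1 ≤ m ∧ m ≤ 2 ∧ m ≤ n ∧ Evil (n.choose m)

/-- Let `t ≥ 1`, `k ≥ 1`.  For every `s ≥ 1` with `t * (2 * s + 1) ≤ 2 ^ k` and
`s * (s + 1) < 2 ^ k`:  row `t * 2 ^ k + s` has an evil entry in column `1` or `2` iff
`ones t + ones s` or `ones (t ^ 2) + ones (t * (2 * s - 1)) + ones (s * (s - 1))` is even,
and row `t * 2 ^ k - s` has one iff `k + ones (t - 1) + ones (s - 1)` or
`k + ones (t ^ 2 - 1) + ones (t * (2 * s + 1) - 1) + ones (s * (s + 1))` is even.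
If `t ≤ 2 ^ k`, row `t * 2 ^ k` has one iff `ones t` or
`k + ones (t ^ 2 - 1) + ones (t - 1)` is even. -/
theorem result (t k : ℕ) (ht : 1 ≤ t) (hk : 1 ≤ k) :
    (∀ s : ℕ, 1 ≤ s → t * (2 * s + 1) ≤ 2 ^ k → s * (s + 1) < 2 ^ k →
      (EvilInOneTwo (t * 2 ^ k + s) ↔
        Even (ones t + ones s) ∨
        Even (ones (t ^ 2) + ones (t * (2 * s - 1)) + ones (s * (s - 1)))) ∧
      (EvilInOneTwo (t * 2 ^ k - s) ↔
        Even (k + ones (t - 1) + ones (s - 1)) ∨
        Even (k + ones (t ^ 2 - 1) + ones (t * (2 * s + 1) - 1) + ones (s * (s + 1))))) ∧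
    (t ≤ 2 ^ k → (EvilInOneTwo (t * 2 ^ k) ↔
        Even (ones t) ∨ Even (k + ones (t ^ 2 - 1) + ones (t - 1)))) := by
  have hE : ∀ x, Evil x ↔ P x = 0 := fun x => Nat.even_iff
  have hX2 : 2 ≤ 2 ^ k := by
    calc 2 = 2 ^ 1 := by norm_num
      _ ≤ 2 ^ k := Nat.pow_le_pow_right (by norm_num) hk
  have key : ∀ n, 2 ≤ n → (EvilInOneTwo n ↔ (P n = 0 ∨ P (n.choose 2) = 0)) := by
    intro n hn
    constructor
    · rintro ⟨m, h1, h2, -, h⟩
      rw [hE] at h
      have hm : m = 1 ∨ m = 2 := by omega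
      rcases hm with rfl | rfl
      · left; rwa [Nat.choose_one_right] at h
      · right; exact h
    · rintro (h | h)
      · exact ⟨1, le_refl _, by omega, by omega, by rw [hE, Nat.choose_one_right]; exact h⟩
      · exact ⟨2, by omega, le_refl _, hn, by rw [hE]; exact h⟩
  have hev : ∀ x, Even x ↔ x % 2 = 0 := fun x => Nat.even_iff
  have hPo : ∀ x, P x = ones x % 2 := fun x => rfl
  refine ⟨?_, ?_⟩
  · intro s hs h1 h2
    have hsX : s < 2 ^ k := by nlinarith
    have htX : 2 ^ k ≤ t * 2 ^ k := Nat.le_mul_of_pos_left _ ht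
    constructor
    · rw [key _ (by omega), col_one_above t s k hsX, col_two_above t s k hs ?_ ?_, hev, hev,
        hPo, hPo, hPo, hPo, hPo]
      · omega
      · calc t * (2 * s - 1) < t * (2 * s + 1) := Nat.mul_lt_mul_of_pos_left (by omega) ht
          _ ≤ 2 ^ k := h1
      · calc s * (s - 1) ≤ s * (s + 1) := Nat.mul_le_mul_left _ (by omega)
          _ < 2 ^ k := h2
    · obtain ⟨a1, a2⟩ := col_two t s k ht hk h1 h2
      rw [key _ a1, col_one_below t s k ht hs hsX.le, a2, hev, hev, hPo, hPo, hPo, hPo, hPo]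
      omega
  · intro htk
    obtain ⟨a1, a2⟩ := col_two t 0 k ht hk (by omega) (by omega)
    have e0 := col_one_above t 0 k (by omega)
    simp only [Nat.sub_zero, Nat.add_zero, Nat.mul_zero, Nat.zero_add, Nat.zero_mul,
      Nat.mul_one, P_zero] at a1 a2 e0
    rw [key _ a1, e0, a2, hev, hev, hPo, hPo, hPo]
    omega

end Pool.Agent.Results.MP_311f06_nt.ColumnsOneTwo
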