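import Pool.Agent.LibPas.CheckA
import Pool.Agent.LibPas.CheckB
import Pool.Agent.LibPas.CheckC
import Pool.Agent.LibPas.CheckD
import Pool.Agent.LibPas.Exc

/-!
# Pascal rows `t * 2 ^ k + r` and odious numbers
-/

set_option autoImplicit false

namespace Pool.Agent.Results.MP_311f06_nt.NearPowers

open Pool.Agent.LibPas

/-- A natural number is evil if its number of binary digits `1` is even. -/
def Evil (x : ℕ) : Prop := Even (Nat.digits 2 x).sum

/-- Every entry of row `n` of Pascal's triangle is odious (not evil). -/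
def AllOdious (n : ℕ) : Prop := ∀ m, m ≤ n → ¬ Evil (n.choose m)

theorem evil_iff (x : ℕ) : Evil x ↔ P x = 0 := by
  unfold Evil P
  exact Nat.even_iff

theorem mem_chunk (t : ℤ) (dat : List Fam)
    (c0 : chunk exc t (-32) dat 0 16 = true) (c1 : chunk exc t (-32) dat 16 16 = true)
    (c2 : chunk exc t (-32) dat 32 1 = true) (c3 : chunk exc t (-32) dat 33 16 = true)
    (c4 : chunk exc t (-32) dat 49 16 = true) (r : ℤ) (hr : |r| ≤ 32) (n k : ℕ)
    (hn : (n : ℤ) = t * 2 ^ k + r) (hk : k < 64 ∨ k % 3240 ∉ exc t r) :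
    (n = 0 ∨ n = 1 ∨ n = 2 ∨ n = 7 ∨ n = 8) ∨ ∃ m, 1 ≤ m ∧ m ≤ n ∧ P (n.choose m) = 0 := by
  obtain ⟨h1, h2⟩ := abs_le.mp hr
  obtain ⟨i, hi⟩ : ∃ i : ℕ, (i : ℤ) = r + 32 := ⟨(r + 32).toNat, Int.toNat_of_nonneg (by omega)⟩
  have e : r = -32 + (i : ℤ) := by omega
  rw [e] at hn hk
  rcases Nat.lt_or_ge i 16 with h | h
  · exact chunk_sound exc t (-32) dat 0 16 c0 i (by omega) (by omega) n k hn hk
  rcases Nat.lt_or_ge i 32 with h | h
  · exact chunk_sound exc t (-32) dat 16 16 c1 i (by omega) (by omega) n k hn hk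
  rcases Nat.lt_or_ge i 33 with h | h
  · exact chunk_sound exc t (-32) dat 32 1 c2 i (by omega) (by omega) n k hn hk
  rcases Nat.lt_or_ge i 49 with h | h
  · exact chunk_sound exc t (-32) dat 33 16 c3 i (by omega) (by omega) n k hn hk
  · exact chunk_sound exc t (-32) dat 49 16 c4 i (by omega) (by omega) n k hn hk

theorem all_five (n : ℕ) (h : n = 0 ∨ n = 1 ∨ n = 2 ∨ n = 7 ∨ n = 8) : AllOdious n := by
  have key : ∀ n ∈ [0, 1, 2, 7, 8], ∀ m ∈ List.range (n + 1), par 13 (n.choose m) = 1 ∧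
      n.choose m < 2 ^ (2 ^ 13) := by decide +kernel
  intro m hm he
  have h1 : n ∈ [0, 1, 2, 7, 8] := by simpa using h
  obtain ⟨h2, h3⟩ := key n h1 m (List.mem_range.mpr (by omega))
  rw [evil_iff, ← par_spec 13 _ h3] at he
  omega

/-- Let `t` be odd with `1 ≤ t ≤ 15`, `|r| ≤ 32` and `n = t * 2 ^ k + r`.  If `k < 64`, or if
`k` modulo `3240` is not in the list `exc t r` (which is empty except for 17 of the 520 pairs `(t, r)`),
then row `n` consists of odious numbers only if and only if `n` is `0`, `1`, `2`, `7` or `8`. -/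
theorem result (t r : ℤ) (n k : ℕ) (ht : t ∈ ({1, 3, 5, 7, 9, 11, 13, 15} : Set ℤ))
    (hr : |r| ≤ 32) (hn : (n : ℤ) = t * 2 ^ k + r) (hk : k < 64 ∨ k % 3240 ∉ exc t r) :
    AllOdious n ↔ n ∈ ({0, 1, 2, 7, 8} : Set ℕ) := by
  have main : (n = 0 ∨ n = 1 ∨ n = 2 ∨ n = 7 ∨ n = 8) ∨
      ∃ m, 1 ≤ m ∧ m ≤ n ∧ P (n.choose m) = 0 := by
    simp only [Set.mem_insert_iff, Set.mem_singleton_iff] at ht
    rcases ht with rfl | rfl | rfl | rfl | rfl | rfl | rfl | rfl
    · exact mem_chunk 1 dat1 chk1_0 chk1_16 chk1_32 chk1_33 chk1_49 r hr n k hn hk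
    · exact mem_chunk 3 dat3 chk3_0 chk3_16 chk3_32 chk3_33 chk3_49 r hr n k hn hk
    · exact mem_chunk 5 dat5 chk5_0 chk5_16 chk5_32 chk5_33 chk5_49 r hr n k hn hk
    · exact mem_chunk 7 dat7 chk7_0 chk7_16 chk7_32 chk7_33 chk7_49 r hr n k hn hk
    · exact mem_chunk 9 dat9 chk9_0 chk9_16 chk9_32 chk9_33 chk9_49 r hr n k hn hk
    · exact mem_chunk 11 dat11 chk11_0 chk11_16 chk11_32 chk11_33 chk11_49 r hr n k hn hk
    · exact mem_chunk 13 dat13 chk13_0 chk13_16 chk13_32 chk13_33 chk13_49 r hr n k hn hk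
    · exact mem_chunk 15 dat15 chk15_0 chk15_16 chk15_32 chk15_33 chk15_49 r hr n k hn hk
  constructor
  · intro h
    rcases main with h1 | ⟨m, h1, h2, h3⟩
    · simpa using h1
    · exact absurd ((evil_iff _).mpr h3) (h m h2)
  · intro h
    exact all_five n (by simpa using h)

end Pool.Agent.Results.MP_311f06_nt.NearPowers
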